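import Pool.Agent.MZT.Qd

/-!
# Mazur's conjecture for quadric bundles over products of affine spaces

Let `f i`, `i < r`, be polynomials with rational coefficients of degree at most `4` in disjoint sets of
variables `x i = (x (i, 0), ..., x (i, N i - 1))`, and let `F k`, `k < s`, be polynomials with rational coefficients of degree
at most `4` in further disjoint sets of variables `u k = (u (k, 0), ..., u (k, M k - 1))` which are weighted homogeneous of degree `2`
for some weights `w k j`, zero weights allowed (so `F k` is a quadratic form in the variables of weight `1` with coefficients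
depending on the variables of weight `0`, plus a linear form in the variables of weight `2` with such coefficients; with
all weights `1`: any quadratic form). Let `X` be the variety of the points `(x, u)` with

`∑_{k : e k = q} ∏ i, f i (x i) ^ al k i * F k (u k) = c q * ∏ i, f i (x i) ^ be q i` for all `q < g`,

`f i (x i) ≠ 0` for `i ∈ J` and `F k (u k) ≠ 0` for `k ∈ J'`, where `J` and `J'` contain all indices for which the polynomial
has degree `4` and more than one variable. The `c q` are arbitrary rational numbers.

The closure in the real affine space of the set of the rational points of `X` has only finitely many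
connected components, and so does its intersection with the complement of every real algebraic set.
-/

set_option autoImplicit false

open MvPolynomial

namespace Pool.Agent.Results.MP_4d3b00_ag.QuadricBundles

theorem result {r s g m : ℕ} (N : Fin r → ℕ) (f : ∀ i, MvPolynomial (Fin (N i)) ℚ)
    (hf : ∀ i, (f i).totalDegree ≤ 4) (J : Finset (Fin r))
    (hJ : ∀ i, i ∉ J → (f i).totalDegree ≤ 3 ∨ N i ≤ 1)
    (M : Fin s → ℕ) (w : ∀ k, Fin (M k) → ℕ) (F : ∀ k, MvPolynomial (Fin (M k)) ℚ)
    (hF : ∀ k, IsWeightedHomogeneous (w k) (F k) 2) (hF4 : ∀ k, (F k).totalDegree ≤ 4)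
    (J' : Finset (Fin s)) (hJ' : ∀ k, k ∉ J' → (F k).totalDegree ≤ 3 ∨ M k ≤ 1)
    (e : Fin s → Fin g) (c : Fin g → ℚ)
    (al : Fin s → Fin r → ℕ) (be : Fin g → Fin r → ℕ)
    (G : Fin m → MvPolynomial ((Σ i, Fin (N i)) ⊕ (Σ k, Fin (M k))) ℝ) :
    Finite (ConnectedComponents ↥{z : (Σ i, Fin (N i)) ⊕ (Σ k, Fin (M k)) → ℝ |
      z ∈ closure {z : (Σ i, Fin (N i)) ⊕ (Σ k, Fin (M k)) → ℝ |
        ∃ (x : ∀ i, Fin (N i) → ℚ) (u : ∀ k, Fin (M k) → ℚ), (∀ i ∈ J, eval (x i) (f i) ≠ 0) ∧
          (∀ k ∈ J', eval (u k) (F k) ≠ 0) ∧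
          (∀ q, ∑ k with e k = q, (∏ i, eval (x i) (f i) ^ al k i) * eval (u k) (F k) =
            c q * ∏ i, eval (x i) (f i) ^ be q i) ∧
          z = Sum.elim (fun p => (x p.1 p.2 : ℝ)) (fun p => (u p.1 p.2 : ℝ))} ∧
      ∃ l, eval z (G l) ≠ 0}) :=
  ((Pool.Agent.MZT.tmq_forms N f hf J hJ M w F hF hF4 J' hJ' e c al be).strong G).finite_components

end Pool.Agent.Results.MP_4d3b00_ag.QuadricBundles
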