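import Pool.Agent.MZT.Hb
import Pool.Agent.MZT.Main
import Pool.Agent.MZT.Fa

/-!
# Mazur's conjecture for two quadratic equations in affine space

Let `q₁`, `q₂` be polynomials of degree at most `2` with rational coefficients in `n` variables (no smoothness, independence or dimension
hypothesis) and `K` the closure in `ℝⁿ` of the set of their common rational zeros. For all real polynomials `G l` the set of the points
of `K` at which some `G l` is not `0` has only finitely many connected components. `m = 1`, `G 0 = 1`: the set `K` itself; homogeneous `q₁`,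
`q₂` and `G l = X l`: the punctured cone over the closure of the rational points of the projective variety `q₁ = q₂ = 0`.
-/

set_option autoImplicit false

open MvPolynomial

namespace Pool.Agent.Results.MP_4d3b00_ag.TwoQuadraticEquations

theorem result {n m : ℕ} (q₁ q₂ : MvPolynomial (Fin n) ℚ) (h₁ : q₁.totalDegree ≤ 2)
    (h₂ : q₂.totalDegree ≤ 2) (G : Fin m → MvPolynomial (Fin n) ℝ) :
    Finite (ConnectedComponents ↥{x : Fin n → ℝ |
      x ∈ closure {x : Fin n → ℝ | ∃ q : Fin n → ℚ, eval q q₁ = 0 ∧ eval q q₂ = 0 ∧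
        x = fun i => (q i : ℝ)} ∧ ∃ l, eval x (G l) ≠ 0}) := by
  have h := Pool.Agent.MZT.tm_two Pool.Agent.MZT.tm_main ![q₁, q₂] (by
    intro j
    fin_cases j
    · exact h₁
    · exact h₂)
  have e : {x : Fin n → ℝ | ∃ q : Fin n → ℚ, eval q q₁ = 0 ∧ eval q q₂ = 0 ∧
      x = fun i => (q i : ℝ)} = Pool.Agent.MZT.QZF ![q₁, q₂] := by
    ext x
    constructor
    · rintro ⟨q, hq1, hq2, rfl⟩
      refine ⟨q, fun j => ?_, rfl⟩
      fin_cases j
      · exact hq1
      · exact hq2
    · rintro ⟨q, hq, rfl⟩
      exact ⟨q, hq 0, hq 1, rfl⟩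
  rw [e]
  exact (h.strong G).finite_components

end Pool.Agent.Results.MP_4d3b00_ag.TwoQuadraticEquations
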